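import Pool.Agent.H92.EHD.TP

/-!
Board ehd_modules (MP_75a732_an): row EA2, the determinant of the lower block of a Gaussian
matrix.
-/

set_option autoImplicit false

namespace Pool.Agent.H57.EHD

open scoped BigOperators ComplexConjugate
open MeasureTheory Pool.Agent.H92.EQ Pool.Agent.H92.EHD

/-! ### Determinants -/

theorem ea2_sgn {m : ℕ} (A : Matrix (Fin m) (Fin m) ℂ) (σ : Equiv.Perm (Fin m)) :
    ‖Equiv.Perm.sign σ • ∏ i, A (σ i) i‖ = ∏ i, ‖A (σ i) i‖ := by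
  rcases Int.units_eq_one_or (Equiv.Perm.sign σ) with h | h <;>
    simp [h, Units.smul_def, norm_prod]

theorem ea2_leib {m : ℕ} (A : Matrix (Fin (m + 1)) (Fin (m + 1)) ℂ) (W P : ℝ) (hW : 0 ≤ W)
    (h0 : ∀ i, ‖A i 0‖ ≤ W) (h1 : ∀ i (j : Fin m), ‖A i j.succ‖ ≤ P) :
    ‖A.det‖ ≤ ((m + 1).factorial : ℝ) * (W * P ^ m) := by
  rw [Matrix.det_apply]
  refine (norm_sum_le _ _).trans ?_
  calc ∑ σ : Equiv.Perm (Fin (m + 1)), ‖Equiv.Perm.sign σ • ∏ i, A (σ i) i‖
      ≤ ∑ _σ : Equiv.Perm (Fin (m + 1)), W * P ^ m := by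
        refine Finset.sum_le_sum fun σ _ => ?_
        rw [ea2_sgn, Fin.prod_univ_succ]
        refine mul_le_mul (h0 _) ?_ (Finset.prod_nonneg fun _ _ => norm_nonneg _) hW
        calc ∏ i : Fin m, ‖A (σ i.succ) i.succ‖ ≤ ∏ _i : Fin m, P :=
              Finset.prod_le_prod (fun _ _ => norm_nonneg _) fun _ _ => h1 _ _
          _ = P ^ m := by simp
    _ = _ := by
        rw [Finset.sum_const, Finset.card_univ, Fintype.card_perm, Fintype.card_fin,
          nsmul_eq_mul]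

theorem ea2_leib' {k : ℕ} (A : Matrix (Fin k) (Fin k) ℂ) (P : ℝ) (h1 : ∀ i j, ‖A i j‖ ≤ P) :
    ‖A.det‖ ≤ (k.factorial : ℝ) * P ^ k := by
  rw [Matrix.det_apply]
  refine (norm_sum_le _ _).trans ?_
  calc ∑ σ : Equiv.Perm (Fin k), ‖Equiv.Perm.sign σ • ∏ i, A (σ i) i‖
      ≤ ∑ _σ : Equiv.Perm (Fin k), P ^ k := by
        refine Finset.sum_le_sum fun σ _ => ?_
        rw [ea2_sgn]
        calc ∏ i : Fin k, ‖A (σ i) i‖ ≤ ∏ _i : Fin k, P :=
              Finset.prod_le_prod (fun _ _ => norm_nonneg _) fun _ _ => h1 _ _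
          _ = P ^ k := by simp
    _ = _ := by
        rw [Finset.sum_const, Finset.card_univ, Fintype.card_perm, Fintype.card_fin,
          nsmul_eq_mul]

theorem ea2_cols {k : ℕ} (X : Fin k → Fin (k + 1) → ℂ) (P W : ℝ) (hP : 1 ≤ P) (hW : 0 ≤ W)
    (h0 : ∀ i, ‖X i 0‖ ≤ W) (h1 : ∀ i (j : Fin k), ‖X i j.succ‖ ≤ P) (l : Fin k) :
    ‖(Matrix.of fun i j : Fin k => X i (l.succ.succAbove j)).det‖ ≤
      (k.factorial : ℝ) * (W * P ^ k) := by
  obtain ⟨m, rfl⟩ : ∃ m, k = m + 1 := ⟨k - 1, by have := l.pos; omega⟩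
  refine (ea2_leib _ W P hW ?_ ?_).trans ?_
  · intro i
    rw [Matrix.of_apply, Fin.succ_succAbove_zero]
    exact h0 i
  · intro i j
    rw [Matrix.of_apply, Fin.succ_succAbove_succ]
    exact h1 i _
  · have h2 : P ^ m ≤ P ^ (m + 1) := pow_le_pow_right₀ hP (Nat.le_succ m)
    gcongr

theorem ea2_point {k : ℕ} (U : Matrix (Fin (k + 1)) (Fin (k + 1)) ℂ)
    (hU : U * U.conjTranspose = 1) (hU' : U.conjTranspose * U = 1)
    (X : Fin k → Fin (k + 1) → ℂ) (P W : ℝ) (hP : 1 ≤ P) (hW : 0 ≤ W)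
    (h0 : ∀ i, ‖X i 0‖ ≤ W) (h1 : ∀ i (j : Fin k), ‖X i j.succ‖ ≤ P) :
    ‖(Matrix.of fun i j : Fin k => ∑ l, X i l * U l j.succ).det‖ ≤
      (k.factorial : ℝ) * P ^ k * (‖U 0 0‖ + k * W) := by
  set M : Matrix (Fin (k + 1)) (Fin (k + 1)) ℂ :=
    Matrix.of (Fin.cons (α := fun _ => Fin (k + 1) → ℂ) (fun l => conj (U l 0)) X) with hM
  have hM0 : ∀ l, M 0 l = conj (U l 0) := fun l => rfl
  have hM1 : ∀ (i : Fin k) l, M i.succ l = X i l := fun i l => rfl
  have e1 : ∀ j, (M * U) 0 j = (1 : Matrix (Fin (k + 1)) (Fin (k + 1)) ℂ) 0 j := by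
    intro j
    rw [← hU', Matrix.mul_apply, Matrix.mul_apply]
    rfl
  have e2 : ∀ (i : Fin k) j, (M * U) i.succ j = ∑ l, X i l * U l j := by
    intro i j
    rw [Matrix.mul_apply]
    rfl
  have e3 : (M * U).det = (Matrix.of fun i j : Fin k => ∑ l, X i l * U l j.succ).det := by
    rw [Matrix.det_succ_row_zero, Fin.sum_univ_succ, Finset.sum_eq_zero, add_zero, e1]
    · simp only [Fin.val_zero, pow_zero, one_mul, Matrix.one_apply_eq]
      congr 1
    · intro j _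
      rw [e1, Matrix.one_apply_ne (Fin.succ_ne_zero j).symm]
      ring
  have e4 : ‖U.det‖ = 1 := by
    have h2 : (U * U.conjTranspose).det = 1 := by rw [hU, Matrix.det_one]
    rw [Matrix.det_mul, Matrix.det_conjTranspose] at h2
    have h3 : ‖U.det‖ * ‖U.det‖ = 1 := by
      have h4 := congrArg norm h2
      rwa [norm_mul, norm_star, norm_one] at h4
    nlinarith [norm_nonneg U.det]
  have e5 : ‖(Matrix.of fun i j : Fin k => ∑ l, X i l * U l j.succ).det‖ = ‖M.det‖ := by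
    rw [← e3, Matrix.det_mul, norm_mul, e4, mul_one]
  have e6 : ∀ l, ‖U l 0‖ ≤ 1 := by
    intro l
    have h2 : (U.conjTranspose * U) 0 0 = 1 := by rw [hU', Matrix.one_apply_eq]
    rw [Matrix.mul_apply] at h2
    have h3 : ∑ j, ‖U j 0‖ ^ 2 = 1 := by
      have h4 := congrArg Complex.re h2
      rw [Complex.re_sum, Complex.one_re] at h4
      rw [← h4]
      refine Finset.sum_congr rfl fun j _ => ?_
      rw [Matrix.conjTranspose_apply, ← Complex.normSq_eq_norm_sq,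
        Complex.star_def, ← Complex.normSq_eq_conj_mul_self, Complex.ofReal_re]
    have h4 : ‖U l 0‖ ^ 2 ≤ 1 := by
      rw [← h3]
      exact Finset.single_le_sum (f := fun j => ‖U j 0‖ ^ 2) (fun j _ => by positivity)
        (Finset.mem_univ l)
    nlinarith [norm_nonneg (U l 0)]
  rw [e5, Matrix.det_succ_row_zero, Fin.sum_univ_succ]
  refine (norm_add_le _ _).trans ?_
  have t0 : ‖(-1 : ℂ) ^ ((0 : Fin (k + 1)) : ℕ) * M 0 0 *
      (M.submatrix Fin.succ (Fin.succAbove 0)).det‖ ≤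
      ‖U 0 0‖ * ((k.factorial : ℝ) * P ^ k) := by
    rw [norm_mul, norm_mul, hM0, RCLike.norm_conj, Fin.val_zero, pow_zero, norm_one, one_mul]
    refine mul_le_mul_of_nonneg_left (ea2_leib' _ P ?_) (norm_nonneg _)
    intro i j
    exact h1 i j
  have t1 : ‖∑ l : Fin k, (-1 : ℂ) ^ ((l.succ : Fin (k + 1)) : ℕ) * M 0 l.succ *
      (M.submatrix Fin.succ (Fin.succAbove l.succ)).det‖ ≤
      k * ((k.factorial : ℝ) * (W * P ^ k)) := by
    refine (norm_sum_le _ _).trans ?_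
    calc _ ≤ ∑ _l : Fin k, (k.factorial : ℝ) * (W * P ^ k) := by
          refine Finset.sum_le_sum fun l _ => ?_
          rw [norm_mul, norm_mul, hM0, RCLike.norm_conj, norm_pow, norm_neg, norm_one,
            one_pow, one_mul]
          have h2 := ea2_cols X P W hP hW h0 h1 l
          have h3 : (M.submatrix Fin.succ (Fin.succAbove l.succ)) =
              Matrix.of fun i j : Fin k => X i (l.succ.succAbove j) := rfl
          rw [h3]
          calc _ ≤ 1 * ‖(Matrix.of fun i j : Fin k => X i (l.succ.succAbove j)).det‖ :=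
                mul_le_mul_of_nonneg_right (e6 _) (norm_nonneg _)
            _ ≤ _ := by rw [one_mul]; exact h2
      _ = _ := by
          rw [Finset.sum_const, Finset.card_univ, Fintype.card_fin, nsmul_eq_mul]
  refine (add_le_add t0 t1).trans (le_of_eq ?_)
  ring

/-! ### Gaussian moments -/

theorem ea2_gauss : Integrable (fun z : ℂ => Real.exp (-‖z‖ ^ 2 / 2)) := by
  have h := (integrable_fun_norm_addHaar (E := ℂ) (volume : Measure ℂ)
    (f := fun r : ℝ => Real.exp (-r ^ 2 / 2))).2 ?_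
  · exact h
  · rw [Complex.finrank_real_complex]
    have h2 := (integrable_mul_exp_neg_mul_sq (b := 1 / 2) (by norm_num)).integrableOn
      (s := Set.Ioi (0 : ℝ))
    refine h2.congr_fun ?_ measurableSet_Ioi
    intro x _
    simp only [smul_eq_mul]
    norm_num
    left
    ring

theorem ea2_gs (t : ℂ) : gs 1 t = Real.pi⁻¹ * Real.exp (-‖t‖ ^ 2) := by
  unfold gs
  rw [mul_one, div_one]

theorem ea2_gs_nn (t : ℂ) : 0 ≤ gs 1 t := by
  rw [ea2_gs]
  have := Real.pi_pos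
  positivity

theorem ea2_gs_cont : Continuous (fun t : ℂ => gs 1 t) := by
  have h : (fun t : ℂ => gs 1 t) = fun t => Real.pi⁻¹ * Real.exp (-‖t‖ ^ 2) :=
    funext ea2_gs
  rw [h]
  fun_prop

theorem ea2_one (s : ℕ) : Integrable (fun t : ℂ => gs 1 t * (1 + ‖t‖ ^ 2) ^ s) := by
  have h1 := ea2_gauss.const_mul (Real.pi⁻¹ * (2 ^ s * s.factorial * Real.exp (1 / 2)))
  refine h1.mono' ?_ ?_
  · exact (ea2_gs_cont.mul (by fun_prop)).aestronglyMeasurable
  · refine Filter.Eventually.of_forall fun t => ?_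
    have hg := ea2_gs_nn t
    rw [Real.norm_of_nonneg (by positivity), ea2_gs]
    have h2 := Real.pow_div_factorial_le_exp ((1 + ‖t‖ ^ 2) / 2) (by positivity) s
    rw [div_le_iff₀ (by positivity), div_pow, div_le_iff₀ (by positivity)] at h2
    have h3 : Real.exp (-‖t‖ ^ 2) * Real.exp ((1 + ‖t‖ ^ 2) / 2) =
        Real.exp (1 / 2) * Real.exp (-‖t‖ ^ 2 / 2) := by
      rw [← Real.exp_add, ← Real.exp_add]
      congr 1
      ring
    have hpi : 0 < Real.pi⁻¹ := inv_pos.2 Real.pi_pos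
    calc Real.pi⁻¹ * Real.exp (-‖t‖ ^ 2) * (1 + ‖t‖ ^ 2) ^ s
        ≤ Real.pi⁻¹ * Real.exp (-‖t‖ ^ 2) *
          (Real.exp ((1 + ‖t‖ ^ 2) / 2) * s.factorial * 2 ^ s) := by gcongr
      _ = Real.pi⁻¹ * (2 ^ s * s.factorial) *
          (Real.exp (-‖t‖ ^ 2) * Real.exp ((1 + ‖t‖ ^ 2) / 2)) := by ring
      _ = _ := by rw [h3]; ring

theorem ea2_fin (k s : ℕ) : ∫⁻ L : Fin k → Fin k → ℂ,
    ENNReal.ofReal (∏ i, ∏ j, (gs 1 (L i j) * (1 + ‖L i j‖ ^ 2) ^ s)) < ⊤ := by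
  have h1 : Integrable (fun l : Fin k → ℂ => ∏ j, (gs 1 (l j) * (1 + ‖l j‖ ^ 2) ^ s)) :=
    Integrable.fintype_prod (f := fun (_ : Fin k) (t : ℂ) => gs 1 t * (1 + ‖t‖ ^ 2) ^ s)
      fun _ => ea2_one s
  have h2 : Integrable (fun L : Fin k → Fin k → ℂ =>
      ∏ i, ∏ j, (gs 1 (L i j) * (1 + ‖L i j‖ ^ 2) ^ s)) :=
    Integrable.fintype_prod (f := fun (_ : Fin k) (l : Fin k → ℂ) =>
      ∏ j, (gs 1 (l j) * (1 + ‖l j‖ ^ 2) ^ s)) fun _ => h1
  exact h2.lintegral_lt_top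

/-! ### Fubini -/

/-- splitting off the first column -/
theorem ea2_mp (k : ℕ) : MeasurePreserving
    (fun X : Fin k → Fin (k + 1) → ℂ =>
      ((fun i => X i 0, fun i j => X i j.succ) : (Fin k → ℂ) × (Fin k → Fin k → ℂ))) := by
  have h1 := volume_preserving_pi (ι := Fin k) (α' := fun _ => Fin (k + 1) → ℂ)
    (β' := fun _ => ℂ × (Fin k → ℂ)) (f := fun _ =>
      MeasurableEquiv.piFinSuccAbove (fun _ : Fin (k + 1) => ℂ) 0)
    (fun _ => volume_preserving_piFinSuccAbove (fun _ : Fin (k + 1) => ℂ) 0)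
  have h2 := volume_measurePreserving_arrowProdEquivProdArrow ℂ (Fin k → ℂ) (Fin k)
  have h3 := h2.comp h1
  exact h3

theorem ea2_one_le {k : ℕ} (f : Fin k → ℝ) (h : ∀ i, 1 ≤ f i) : 1 ≤ ∏ i, f i := by
  calc (1 : ℝ) = ∏ _i : Fin k, (1 : ℝ) := by simp
    _ ≤ ∏ i, f i := Finset.prod_le_prod (fun _ _ => zero_le_one) fun i _ => h i

theorem ea2_le_prod {k : ℕ} (f : Fin k → ℝ) (h : ∀ i, 1 ≤ f i) (j : Fin k) :
    f j ≤ ∏ i, f i := by
  have h0 : 0 ≤ f j := zero_le_one.trans (h j)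
  have h1 : 1 ≤ ∏ i ∈ Finset.univ.erase j, f i := by
    calc (1 : ℝ) = ∏ _i ∈ Finset.univ.erase j, (1 : ℝ) := by simp
      _ ≤ _ := Finset.prod_le_prod (fun _ _ => zero_le_one) fun i _ => h i
  rw [← Finset.mul_prod_erase Finset.univ f (Finset.mem_univ j)]
  nlinarith

theorem ea2_prod {k : ℕ} (w : Fin k → ℂ) : ∏ i, gs 1 (w i) ≤ Real.exp (-nsq w) := by
  have h1 : ∏ i, gs 1 (w i) ≤ ∏ i, Real.exp (-‖w i‖ ^ 2) := by
    refine Finset.prod_le_prod (fun i _ => ea2_gs_nn _) fun i _ => ?_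
    rw [ea2_gs]
    have h2 : Real.pi⁻¹ ≤ 1 := inv_le_one_of_one_le₀ (by linarith [Real.pi_gt_three])
    have h3 := Real.exp_pos (-‖w i‖ ^ 2)
    nlinarith
  refine h1.trans (le_of_eq ?_)
  rw [← Real.exp_sum]
  congr 1
  unfold nsq
  rw [Finset.sum_neg_distrib]

theorem pf_EA2 (hRUN : T_RUN) : T_EA2 := by
  intro k
  set I : ENNReal := ∫⁻ L : Fin k → Fin k → ℂ,
    ENNReal.ofReal (∏ i, ∏ j, (gs 1 (L i j) * (1 + ‖L i j‖ ^ 2) ^ (2 * k))) with hI
  set K : ℝ := (k.factorial : ℝ) ^ 2 * (1 + (k : ℝ) ^ 2) with hK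
  have hK0 : 0 ≤ K := by positivity
  refine ⟨ENNReal.ofReal K * I, ENNReal.mul_ne_top ENNReal.ofReal_ne_top (ea2_fin k _).ne, ?_⟩
  intro y hy g hg
  obtain ⟨U, hU, hU', hUy, hinv⟩ := hRUN k y hy
  -- the first entry of `y`
  have hy0 : ‖U 0 0‖ = ‖y 0‖ := by
    have h1 : y = U.conjTranspose.mulVec (Pi.single 0 1) := by
      rw [← hUy, Matrix.mulVec_mulVec, hU', Matrix.one_mulVec]
    rw [h1]
    simp [Matrix.mulVec_single, Matrix.conjTranspose_apply]
  -- the change of variable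
  set F : (Fin k → Fin (k + 1) → ℂ) → ENNReal := fun X =>
    ENNReal.ofReal (‖(Matrix.of fun i j : Fin k => X i j.succ).det‖ ^ 2) *
      g (fun i => ∑ j, X i j * y j) with hF
  have hdet : Measurable fun X : Fin k → Fin (k + 1) → ℂ =>
      (Matrix.of fun i j : Fin k => X i j.succ).det := by
    refine Continuous.measurable ?_
    refine Continuous.matrix_det ?_
    refine continuous_matrix fun i j => ?_
    exact (continuous_apply j.succ).comp
      (continuous_apply (A := fun _ : Fin k => Fin (k + 1) → ℂ) i)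
  have hFm : Measurable F := by
    refine Measurable.mul ?_ (hg.comp ?_)
    · exact (hdet.norm.pow_const 2).ennreal_ofReal
    · refine measurable_pi_lambda _ fun i => ?_
      refine Finset.measurable_sum _ fun j _ => ?_
      exact ((measurable_pi_apply j).comp (measurable_pi_apply i)).mul_const _
  have hgs0 : ∀ X : Fin k → Fin (k + 1) → ℂ, 0 ≤ ∏ i, ∏ j, gs 1 (X i j) := fun X =>
    Finset.prod_nonneg fun i _ => Finset.prod_nonneg fun j _ => ea2_gs_nn _
  have s1 : ∫⁻ X : Fin k → Fin (k + 1) → ℂ, ENNReal.ofReal ((∏ i, ∏ j, gs 1 (X i j)) *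
          ‖(Matrix.of fun i j : Fin k => X i j.succ).det‖ ^ 2) *
          g (fun i => ∑ j, X i j * y j) =
      ∫⁻ X : Fin k → Fin (k + 1) → ℂ, ENNReal.ofReal (∏ i, ∏ j, gs 1 (X i j)) *
        F (fun i j => ∑ l, X i l * U l j) := by
    rw [hinv k F hFm]
    refine lintegral_congr fun X => ?_
    rw [hF, ENNReal.ofReal_mul (hgs0 X), mul_assoc]
  rw [s1]
  -- the pointwise bound
  set G : (Fin k → ℂ) → ENNReal := fun w =>
    ENNReal.ofReal (Real.exp (-nsq w) * (‖y 0‖ ^ 2 + nsq w)) * g w with hG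
  set J : (Fin k → Fin k → ℂ) → ENNReal := fun L =>
    ENNReal.ofReal K *
      ENNReal.ofReal (∏ i, ∏ j, (gs 1 (L i j) * (1 + ‖L i j‖ ^ 2) ^ (2 * k))) with hJ
  have s2 : ∀ X : Fin k → Fin (k + 1) → ℂ, ENNReal.ofReal (∏ i, ∏ j, gs 1 (X i j)) *
        F (fun i j => ∑ l, X i l * U l j) ≤
      G (fun i => X i 0) * J (fun i j => X i j.succ) := by
    intro X
    have a1 : (fun i => ∑ j, (∑ l, X i l * U l j) * y j) = fun i => X i 0 := by
      funext i
      have a2 : ∑ j, (∑ l, X i l * U l j) * y j = ∑ l, X i l * U.mulVec y l := by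
        simp only [Matrix.mulVec, dotProduct, Finset.mul_sum, Finset.sum_mul]
        rw [Finset.sum_comm]
        exact Finset.sum_congr rfl fun l _ => Finset.sum_congr rfl fun j _ => by ring
      rw [a2, hUy, Finset.sum_eq_single 0]
      · simp
      · intro l _ hl
        simp [hl]
      · simp
    set w : Fin k → ℂ := fun i => X i 0 with hw
    set P : ℝ := ∏ i, ∏ j : Fin k, (1 + ‖X i j.succ‖ ^ 2) with hP
    have b0 : ∀ i (j : Fin k), 1 ≤ 1 + ‖X i j.succ‖ ^ 2 := fun i j => by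
      nlinarith [sq_nonneg ‖X i j.succ‖]
    have b1 : ∀ i, 1 ≤ ∏ j : Fin k, (1 + ‖X i j.succ‖ ^ 2) := fun i =>
      ea2_one_le _ fun j => b0 i j
    have b2 : 1 ≤ P := ea2_one_le _ b1
    have b3 : ∀ i (j : Fin k), ‖X i j.succ‖ ≤ P := by
      intro i j
      have c1 : ‖X i j.succ‖ ≤ 1 + ‖X i j.succ‖ ^ 2 := by
        nlinarith [sq_nonneg (‖X i j.succ‖ - 1), norm_nonneg (X i j.succ)]
      have c2 := ea2_le_prod (fun j : Fin k => 1 + ‖X i j.succ‖ ^ 2) (fun j => b0 i j) j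
      have c3 := ea2_le_prod (fun i => ∏ j : Fin k, (1 + ‖X i j.succ‖ ^ 2)) b1 i
      exact c1.trans (c2.trans c3)
    have hn0 : 0 ≤ nsq w := Finset.sum_nonneg fun i _ => sq_nonneg _
    have b4 : ∀ i, ‖X i 0‖ ≤ Real.sqrt (nsq w) := by
      intro i
      refine Real.le_sqrt_of_sq_le ?_
      exact Finset.single_le_sum (f := fun i => ‖w i‖ ^ 2) (fun i _ => sq_nonneg _)
        (Finset.mem_univ i)
    have b5 := ea2_point U hU hU' X P _ b2 (Real.sqrt_nonneg (nsq w)) b4 b3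
    rw [hy0] at b5
    have b6 : ‖(Matrix.of fun i j : Fin k => ∑ l, X i l * U l j.succ).det‖ ^ 2 ≤
        K * P ^ (2 * k) * (‖y 0‖ ^ 2 + nsq w) := by
      have c1 := pow_le_pow_left₀ (norm_nonneg _) b5 2
      refine c1.trans ?_
      have c2 : (‖y 0‖ + k * Real.sqrt (nsq w)) ^ 2 ≤
          (1 + (k : ℝ) ^ 2) * (‖y 0‖ ^ 2 + nsq w) := by
        have c3 := Real.sq_sqrt hn0
        nlinarith [sq_nonneg (k * ‖y 0‖ - Real.sqrt (nsq w))]
      calc ((k.factorial : ℝ) * P ^ k * (‖y 0‖ + k * Real.sqrt (nsq w))) ^ 2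
          = (k.factorial : ℝ) ^ 2 * P ^ (2 * k) *
            (‖y 0‖ + k * Real.sqrt (nsq w)) ^ 2 := by ring
        _ ≤ (k.factorial : ℝ) ^ 2 * P ^ (2 * k) *
            ((1 + (k : ℝ) ^ 2) * (‖y 0‖ ^ 2 + nsq w)) :=
            mul_le_mul_of_nonneg_left c2 (by positivity)
        _ = _ := by rw [hK]; ring
    have b7 : (∏ i, ∏ j, gs 1 (X i j)) ≤
        Real.exp (-nsq w) * ∏ i, ∏ j : Fin k, gs 1 (X i j.succ) := by
      have c1 : (∏ i, ∏ j, gs 1 (X i j)) =
          (∏ i, gs 1 (w i)) * ∏ i, ∏ j : Fin k, gs 1 (X i j.succ) := by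
        rw [← Finset.prod_mul_distrib]
        exact Finset.prod_congr rfl fun i _ => Fin.prod_univ_succ _
      rw [c1]
      exact mul_le_mul_of_nonneg_right (ea2_prod w)
        (Finset.prod_nonneg fun i _ => Finset.prod_nonneg fun j _ => ea2_gs_nn _)
    have b8 : (∏ i, ∏ j : Fin k, gs 1 (X i j.succ)) * P ^ (2 * k) =
        ∏ i, ∏ j : Fin k, (gs 1 (X i j.succ) * (1 + ‖X i j.succ‖ ^ 2) ^ (2 * k)) := by
      rw [hP, ← Finset.prod_pow, ← Finset.prod_mul_distrib]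
      refine Finset.prod_congr rfl fun i _ => ?_
      rw [← Finset.prod_pow, ← Finset.prod_mul_distrib]
    have b9 : (0 : ℝ) ≤ ∏ i, ∏ j : Fin k, gs 1 (X i j.succ) :=
      Finset.prod_nonneg fun i _ => Finset.prod_nonneg fun j _ => ea2_gs_nn _
    have b10 : (∏ i, ∏ j, gs 1 (X i j)) *
        ‖(Matrix.of fun i j : Fin k => ∑ l, X i l * U l j.succ).det‖ ^ 2 ≤
        (Real.exp (-nsq w) * (‖y 0‖ ^ 2 + nsq w)) *
        (K * ∏ i, ∏ j : Fin k, (gs 1 (X i j.succ) * (1 + ‖X i j.succ‖ ^ 2) ^ (2 * k))) := by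
      rw [← b8]
      calc _ ≤ (Real.exp (-nsq w) * ∏ i, ∏ j : Fin k, gs 1 (X i j.succ)) *
            (K * P ^ (2 * k) * (‖y 0‖ ^ 2 + nsq w)) :=
            mul_le_mul b7 b6 (sq_nonneg _) (mul_nonneg (Real.exp_pos _).le b9)
        _ = _ := by ring
    change ENNReal.ofReal (∏ i, ∏ j, gs 1 (X i j)) *
      (ENNReal.ofReal (‖(Matrix.of fun i j : Fin k => ∑ l, X i l * U l j.succ).det‖ ^ 2) *
        g (fun i => ∑ j, (∑ l, X i l * U l j) * y j)) ≤
      ENNReal.ofReal (Real.exp (-nsq w) * (‖y 0‖ ^ 2 + nsq w)) * g w *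
      (ENNReal.ofReal K * ENNReal.ofReal (∏ i, ∏ j : Fin k,
        (gs 1 (X i j.succ) * (1 + ‖X i j.succ‖ ^ 2) ^ (2 * k))))
    rw [a1, ← mul_assoc, ← ENNReal.ofReal_mul (hgs0 X), ← ENNReal.ofReal_mul hK0]
    calc _ ≤ ENNReal.ofReal ((Real.exp (-nsq w) * (‖y 0‖ ^ 2 + nsq w)) *
        (K * ∏ i, ∏ j : Fin k, (gs 1 (X i j.succ) * (1 + ‖X i j.succ‖ ^ 2) ^ (2 * k)))) *
          g w := by
          gcongr
      _ = _ := by
          rw [ENNReal.ofReal_mul (by positivity)]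
          ring
  refine (lintegral_mono s2).trans ?_
  have hnsq : Measurable (nsq : (Fin k → ℂ) → ℝ) := by
    refine Continuous.measurable ?_
    unfold nsq
    fun_prop
  have hGm : Measurable G := by
    refine Measurable.mul ?_ hg
    refine Measurable.ennreal_ofReal ?_
    exact (Real.measurable_exp.comp hnsq.neg).mul (measurable_const.add hnsq)
  have hJm : Measurable J := by
    refine Measurable.const_mul ?_ _
    refine Measurable.ennreal_ofReal ?_
    refine Continuous.measurable ?_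
    refine continuous_finsetProd _ fun i _ => continuous_finsetProd _ fun j _ => ?_
    have c1 : Continuous fun L : Fin k → Fin k → ℂ => L i j := by fun_prop
    exact (ea2_gs_cont.comp c1).mul (by fun_prop)
  have s3 := (ea2_mp k).lintegral_comp (f := fun p => G p.1 * J p.2)
    ((hGm.comp measurable_fst).mul (hJm.comp measurable_snd))
  have s4 : ∫⁻ p : (Fin k → ℂ) × (Fin k → Fin k → ℂ), G p.1 * J p.2 =
      (∫⁻ w, G w) * ∫⁻ L, J L := lintegral_prod_mul hGm.aemeasurable hJm.aemeasurable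
  refine (le_of_eq (s3.trans s4)).trans (le_of_eq ?_)
  have s5 : ∫⁻ L, J L = ENNReal.ofReal K * I := by
    rw [hJ, lintegral_const_mul' _ _ ENNReal.ofReal_ne_top]
  rw [s5, mul_comm]

end Pool.Agent.H57.EHD
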