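import Pool.Agent.H92.EHD.TP

/-!
# Board ehd_modules, row EFI: the theorem
-/

set_option autoImplicit false

namespace Pool.Agent.H57.EHD

open scoped BigOperators ComplexConjugate ContDiff ComplexOrder
open MeasureTheory Pool.Agent.H92.EQ Pool.Agent.H92.EHD Filter Topology

theorem pf_EFI (hEKZ : T_EKZ) (hEAW : T_EAW) (hEPZ : T_EPZ) (hELE : T_ELE) (hETZ : T_ETZ)
    (hKP : T_KP2) : T_EFI := by
  intro k d p q F K φ u hk hd hpq hF hK hφ hu
  have hpq' : p + q + 1 = k + 1 := by omega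
  obtain ⟨C, hCC⟩ := hKP (k + 1) d p q F φ u hd hpq' hF.isH hφ hu
  have hb : Tendsto (fun l : ℕ => 2 * (C / (d : ℝ) ^ l)) atTop (𝓝 0) := by
    have h1 : Tendsto (fun l : ℕ => ((1 : ℝ) / d) ^ l) atTop (𝓝 0) := by
      apply tendsto_pow_atTop_nhds_zero_of_lt_one
      · positivity
      · rw [div_lt_one (by positivity)]
        exact_mod_cast (by omega : 1 < d)
    have h2 := h1.const_mul (2 * C)
    rw [mul_zero] at h2
    refine h2.congr fun l => ?_
    rw [one_div, inv_pow]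
    ring
  have hcs : CauchySeq (fun n => pair φ (Sn F d n (om (k + 1) p)) u) := by
    refine cauchySeq_of_le_tendsto_0 (fun l => 2 * (C / (d : ℝ) ^ l)) ?_ hb
    intro n m l hn hm
    rw [Real.dist_eq]
    have h1 := hCC l n hn
    have h2 := hCC l m hm
    have := abs_sub_le (pair φ (Sn F d n (om (k + 1) p)) u)
      (pair φ (Sn F d l (om (k + 1) p)) u) (pair φ (Sn F d m (om (k + 1) p)) u)
    rw [abs_sub_comm (pair φ (Sn F d l (om (k + 1) p)) u)] at this
    linarith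
  obtain ⟨L, hL⟩ := cauchySeq_tendsto_of_complete hcs
  refine ⟨L, hL, fun ε hε => ?_⟩
  have hC : ConvE F d p {K | AwayE F K} := hEKZ k d p F {K | AwayE F K} hk hd hF
    (hEAW k d F hd hF) (fun K' hK' => hEPZ k d F K' hk hd hF (hELE k k 0) (hETZ k k 0) hK')
  obtain ⟨a, ha, hCa⟩ := hC q hpq φ u hφ hu (ε / 2) (by linarith)
  obtain ⟨n1, h1⟩ := hCa K hK
  obtain ⟨n2, h2⟩ := (Metric.tendsto_atTop.1 hL) (ε / 2) (by linarith)
  refine ⟨a, ha, max n1 n2, fun n hn S hS hSK hm hlm => ?_⟩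
  have a1 := h1 n (le_trans (le_max_left _ _) hn) S ⟨hS, hSK, hm, hlm⟩
  have a2 := h2 n (le_trans (le_max_right _ _) hn)
  rw [Real.dist_eq] at a2
  have := abs_sub_le (pair φ (Sn F d n S) u) (pair φ (Sn F d n (om (k + 1) p)) u) L
  linarith

end Pool.Agent.H57.EHD
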