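import Pool.Agent.H92.EHD.TK
import Pool.Agent.H80.EQ.KI

/-!
# Board ehd_modules, row EPB: pull-back of a pairing with the Green potentials
-/

set_option autoImplicit false

namespace Pool.Agent.H57.EHD

open scoped BigOperators ComplexConjugate ContDiff ComplexOrder
open MeasureTheory Pool.Agent.H92.EQ Pool.Agent.H92.EHD Pool.Agent.H80.EQ

theorem pf_EPB (hG4 : T_G4) (hD12 : T_D12) (hL3 : T_L3) (hL6 : T_L6) : T_EPB := by
  intro N d p q i F S f hd hN hF hS hf
  have hell : Pot (ell : (Fin N → ℂ) → ℝ) := (hL3 N).1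
  have hd1 : 1 ≤ d := by omega
  have hd0 : (0 : ℝ) < d := by exact_mod_cast hd1
  have hN0 : 0 < N := by omega
  have hΦ : IsH (d ^ i) (iter F i) := (hD12 N d F hd1 hF 0 i).1
  obtain ⟨Bf, hBf0, hBf⟩ := (hL6 N).1 f hf.smooth.continuousOn (fun t z ht hz =>
    hf.hom (t : ℂ) z (by exact_mod_cast ht.ne') hz)
  have hB : ∀ z, |f z| ≤ max Bf |f 0| := by
    intro z
    by_cases hz : z = 0
    · rw [hz]
      exact le_max_right _ _
    · exact (hBf z hz).trans (le_max_left _ _)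
  have g4 := hG4 N p q (d ^ i) (iter F i) S (fun _ => ell) (fun _ => 1) f
    (max Bf |f 0|) hN (Nat.one_le_pow _ _ (by omega)) hΦ hS (fun _ => ki_LH hell)
    (ki_meas hf.smooth.continuousOn) hB hf.hom
  have e1 : pair (fun z => f (ev (iter F i) z)) (Sn F d i S)
      (fun _ : Fin q => Gn F d i) =
      ((1 / (d : ℝ) ^ i) ^ q * ((d : ℝ) ^ (p * i))⁻¹) *
        pair (fun z => f (ev (iter F i) z)) (pull (iter F i) S)
          (fun (_ : Fin q) z => ell (ev (iter F i) z)) := by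
    refine ki_congr hN0 _ ?_
    intro z hz
    have q2 := Pool.Agent.H84.EQ.Q_smul (Sn F d i S) (1 / (d : ℝ) ^ i)
      (fun (_ : Fin q) z => ell (ev (iter F i) z)) z
    have q3 : Q (Sn F d i S) (fun (_ : Fin q) z => ell (ev (iter F i) z)) z =
        ((d : ℝ) ^ (p * i))⁻¹ * Q (pull (iter F i) S)
          (fun (_ : Fin q) z => ell (ev (iter F i) z)) z := by
      refine ki_Q_S _ z _ ?_
      intro I J
      unfold Sn
      push_cast
      rfl
    have q1 : Q (Sn F d i S) (fun _ : Fin q => Gn F d i) z =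
        Q (Sn F d i S) (fun (_ : Fin q) z => (1 / (d : ℝ) ^ i) * ell (ev (iter F i) z)) z := rfl
    rw [q1, q2, q3]
    ring
  have e2 : ((1 / (d : ℝ) ^ i) ^ q * ((d : ℝ) ^ (p * i))⁻¹) *
      (((d ^ i : ℕ) : ℝ) ^ (N - 1)) = 1 := by
    have hN1 : N - 1 = p + q := by omega
    rw [hN1]
    push_cast
    have h1 : ((d : ℝ) ^ i) ≠ 0 := by positivity
    rw [one_div, mul_comm p i, pow_mul (d : ℝ) i p, inv_pow, pow_add]
    field_simp
  rw [e1, g4, ← mul_assoc, e2, one_mul]

end Pool.Agent.H57.EHD
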